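import Mathlib
import Pool.Agent.H49.DQ.Cone

set_option autoImplicit false

namespace Pool.Agent.Results.MP_b9427a_nt.CompactQuartic

open MvPolynomial Pool.Agent.H49.DQ

/-- Q1 is a question about nonnegative quartic polynomials with compact real zero set. -/
theorem result :
    Q1 ↔ ∃ (n : ℕ) (f : MvPolynomial (Fin (n + 1)) ℚ), f.totalDegree ≤ 4 ∧
      (∀ x : Fin (n + 1) → ℝ, 0 ≤ aeval x f) ∧
      IsCompact {x : Fin (n + 1) → ℝ | aeval x f = 0} ∧
      (proj f).Nonempty ∧ Transcendental ℚ (sSup (((↑) : ℚ → ℝ) '' proj f)) :=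
  Q1_iff_quartic

end Pool.Agent.Results.MP_b9427a_nt.CompactQuartic
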