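import Mathlib
import Pool.Agent.H49.DQ.Defs
import Pool.Agent.H49.DC.Gap

set_option autoImplicit false

namespace Pool.Agent.Results.MP_b9427a_nt.CubicProjection

open MvPolynomial Pool.Agent.H49.DQ Pool.Agent.H49.DC

/-- For a polynomial of total degree at most three the supremum of the projection of the rational
zeros is algebraic, and a transcendental number in the closure of the projection is a limit of
elements of the projection from both sides. -/
theorem result (n : ℕ) (f : MvPolynomial (Fin (n + 1)) ℚ) (hf : f.totalDegree ≤ 3) :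
    ((proj f).Nonempty → BddAbove (((↑) : ℚ → ℝ) '' proj f) →
      IsAlgebraic ℚ (sSup (((↑) : ℚ → ℝ) '' proj f))) ∧
    (∀ a : ℝ, Transcendental ℚ a → a ∈ closure (((↑) : ℚ → ℝ) '' proj f) → ∀ ε > 0,
      (∃ t ∈ proj f, a - ε < (t : ℝ) ∧ (t : ℝ) < a) ∧
      (∃ t ∈ proj f, a < (t : ℝ) ∧ (t : ℝ) < a + ε)) := by
  refine ⟨fun h1 h2 => sup_degree_three n f hf (proj f) (fun _ => Iff.rfl) h1 h2, ?_⟩
  intro a ha hcl ε hε
  obtain ⟨T, hT, h⟩ := C3.of_totalDegree f hf
  obtain ⟨L0, hL0⟩ : ∃ L0 : (Fin (n + 1 + 1) → ℚ) →ₗ[ℚ] ℚ, L0 = LinearMap.proj 0 := ⟨_, rfl⟩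
  obtain ⟨L1, hL1⟩ : ∃ L1 : (Fin (n + 1 + 1) → ℚ) →ₗ[ℚ] ℚ, L1 = LinearMap.proj 1 := ⟨_, rfl⟩
  have hXS : XS T L0 L1 = proj f := by
    ext t
    constructor
    · rintro ⟨x, hx, h0, h1⟩
      rw [hL0] at h0
      rw [hL1] at h1
      refine ⟨fun i => x i.succ.succ, ?_⟩
      have h2 := h (Fin.cons t (fun i => x i.succ.succ) : Fin (n + 1) → ℚ)
      simp only at h2
      rw [h2]
      have h3 : (Fin.cons 1 (Fin.cons t (fun i => x i.succ.succ) : Fin (n + 1) → ℚ) :
          Fin (n + 1 + 1) → ℚ) = x := by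
        funext i
        refine Fin.cases ?_ (fun j => ?_) i
        · exact h0.symm
        · refine Fin.cases ?_ (fun k => ?_) j
          · exact h1.symm
          · rfl
      rw [h3, hx]
    · rintro ⟨y, hy⟩
      refine ⟨Fin.cons 1 (Fin.cons t y : Fin (n + 1) → ℚ), ?_, ?_, ?_⟩
      · rw [← h]; exact hy
      · rw [hL0]; rfl
      · rw [hL1]; rfl
  rw [← hXS] at hcl ⊢
  exact two_sided_form hT L0 L1 ha hcl hε

end Pool.Agent.Results.MP_b9427a_nt.CubicProjection
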