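import Mathlib
import Pool.Agent.H49.DQ.Cone

set_option autoImplicit false

namespace Pool.Agent.Results.MP_b9427a_nt.RealClosedField

open MvPolynomial Pool.Agent.H49.DQ

/-- The reals with both rational cuts diophantine form a real closed field that is algebraically
closed in the reals, the reals with diophantine lower cut form a cone containing it, and Q1 asks
whether that cone contains a transcendental number. -/
theorem result :
    (∃ D : Subfield ℝ, (∀ a : ℝ, a ∈ D ↔ IsDioph {q : ℚ | (q : ℝ) < a} ∧ IsDioph {q : ℚ | a < (q : ℝ)}) ∧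
      IsRealClosed D ∧ ∀ b : ℝ, IsAlgebraic D b → b ∈ D) ∧
    (∀ a b : ℝ, IsDioph {q : ℚ | (q : ℝ) < a} → IsDioph {q : ℚ | (q : ℝ) < b} →
      IsDioph {q : ℚ | (q : ℝ) < a + b} ∧ IsDioph {q : ℚ | (q : ℝ) < max a b} ∧
      IsDioph {q : ℚ | (q : ℝ) < min a b} ∧
      (0 ≤ a → 0 ≤ b → IsDioph {q : ℚ | (q : ℝ) < a * b})) ∧
    (∀ a : ℝ, IsDioph {q : ℚ | (q : ℝ) < a} → ¬ IsDioph {q : ℚ | a < (q : ℝ)} →
      Transcendental ℚ a) ∧
    (Q1 ↔ ∃ a : ℝ, Transcendental ℚ a ∧ IsDioph {q : ℚ | (q : ℝ) < a}) := by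
  refine ⟨⟨diophReals, fun a => ?_, inferInstance, fun b hb => mem_of_isAlgebraic hb⟩, ?_, ?_, ?_⟩
  · rw [lc_iff, lc_neg_iff]
    exact Iff.rfl
  · intro a b ha hb
    rw [lc_iff] at ha hb
    refine ⟨(lc_iff _).mpr (ha.add hb), (lc_iff _).mpr (ha.max hb), (lc_iff _).mpr (ha.min hb),
      fun h1 h2 => (lc_iff _).mpr (ha.mul_nonneg hb h1 h2)⟩
  · intro a h1 h2
    rw [lc_iff] at h1
    rw [lc_neg_iff] at h2
    exact transcendental_of_one_sided h1 h2
  · rw [Q1_iff_LC]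
    refine exists_congr fun a => and_congr_right fun _ => (lc_iff a).symm

end Pool.Agent.Results.MP_b9427a_nt.RealClosedField
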