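import Mathlib
import Pool.Agent.H49.DQ.Cone

set_option autoImplicit false

namespace Pool.Agent.Results.MP_b9427a_nt.TranscendentalDistance

open MvPolynomial Pool.Agent.H49.DQ

/-- Q1 is equivalent to the existence of a transcendental distance of a rational point to a
diophantine set, and to a transcendental end point of a gap of a diophantine set. -/
theorem result :
    (Q1 ↔ ∃ (k : ℕ) (Y : Set (Fin k → ℚ)) (p : Fin k → ℚ), IsDiophK Y ∧ Y.Nonempty ∧
      Transcendental ℚ (distTo p Y)) ∧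
    (Q1 ↔ ∃ (X : Set ℚ) (a r : ℝ), IsDioph X ∧ Transcendental ℚ a ∧ a < r ∧
      a ∈ closure (((↑) : ℚ → ℝ) '' X) ∧ ∀ x ∈ X, ¬ (a < (x : ℝ) ∧ (x : ℝ) < r)) :=
  ⟨Q1_iff_dist, Q1_iff_gap⟩

end Pool.Agent.Results.MP_b9427a_nt.TranscendentalDistance
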